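import Mathlib

/-!
# Largest square in an odd-dimensional unit cube

We prove that the largest edge of a square contained in `[0,1]^(2n+1)` is `sqrt ((8n+1)/8)`
for every `n ≥ 1`.
-/

namespace Pool.Agent.Results.MP_befaea_co.OddSquare

open Finset

/-- The set of edge lengths `s` of `m`-dimensional cubes inscribed in the unit cube `[0,1]^n`:
`s ≥ 0` and some affine isometric embedding `φ : ℝ^m → ℝ^n` maps `[0,s]^m` into `[0,1]^n`. -/
def cubeEdges (m n : ℕ) : Set ℝ :=
  {s | 0 ≤ s ∧ ∃ φ : EuclideanSpace ℝ (Fin m) →ᵃⁱ[ℝ] EuclideanSpace ℝ (Fin n),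
    ∀ x : EuclideanSpace ℝ (Fin m), (∀ i, 0 ≤ x i ∧ x i ≤ s) →
      ∀ j, 0 ≤ φ x j ∧ φ x j ≤ 1}

/-- parity step -/
lemma parity_step {N : ℕ} (hN : Odd N) (x : Fin N → ℝ) (hx : ∀ j, |x j| ≤ 1)
    (h0 : ∑ j, x j = 0) : 1 ≤ ∑ j, (1 - |x j|) := by
  classical
  set P := univ.filter (fun j => 0 ≤ x j) with hP
  set Q := univ.filter (fun j => ¬ 0 ≤ x j) with hQ
  have hsplit : ∀ f : Fin N → ℝ, ∑ j, f j = ∑ j ∈ P, f j + ∑ j ∈ Q, f j := by
    intro f
    rw [hP, hQ, Finset.sum_filter_add_sum_filter_not]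
  have hPx : ∑ j ∈ P, |x j| = ∑ j ∈ P, x j := by
    apply Finset.sum_congr rfl
    intro j hj
    exact abs_of_nonneg (by simpa [hP] using hj)
  have hQx : ∑ j ∈ Q, |x j| = - ∑ j ∈ Q, x j := by
    rw [← Finset.sum_neg_distrib]
    apply Finset.sum_congr rfl
    intro j hj
    exact abs_of_nonpos (by
      have : ¬ 0 ≤ x j := by simpa [hQ] using hj
      linarith)
  have heq : ∑ j ∈ P, |x j| = ∑ j ∈ Q, |x j| := by
    rw [hPx, hQx]
    have := hsplit x
    linarith
  have hPle : ∑ j ∈ P, |x j| ≤ (P.card : ℝ) := by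
    calc ∑ j ∈ P, |x j| ≤ ∑ j ∈ P, (1:ℝ) := Finset.sum_le_sum (fun j _ => hx j)
      _ = P.card := by simp
  have hQle : ∑ j ∈ Q, |x j| ≤ (Q.card : ℝ) := by
    calc ∑ j ∈ Q, |x j| ≤ ∑ j ∈ Q, (1:ℝ) := Finset.sum_le_sum (fun j _ => hx j)
      _ = Q.card := by simp
  have hcard : P.card + Q.card = N := by
    have := Finset.card_filter_add_card_filter_not (s := (univ : Finset (Fin N)))
      (p := fun j => 0 ≤ x j)
    rw [Finset.card_univ, Fintype.card_fin] at this
    exact this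
  have hsum : ∑ j, (1 - |x j|) = (N : ℝ) - (∑ j ∈ P, |x j| + ∑ j ∈ Q, |x j|) := by
    rw [Finset.sum_sub_distrib, hsplit (fun j => |x j|)]
    simp
  rw [hsum]
  have hne : P.card ≠ Q.card := by
    intro h
    rw [h] at hcard
    rcases hN with ⟨k, hk⟩
    omega
  have hcardR : (P.card : ℝ) + Q.card = N := by exact_mod_cast hcard
  rcases lt_or_gt_of_ne hne with h | h
  · have h' : (P.card : ℝ) + 1 ≤ Q.card := by exact_mod_cast h
    linarith
  · have h' : (Q.card : ℝ) + 1 ≤ P.card := by exact_mod_cast h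
    linarith

/-- The chord bound: `(1 - |x|) (1 + b) ≤ 2 δ` if `x² ≥ 1 - 2δ` and `b² ≤ 1 - 2δ`. -/
lemma chord {x δ b : ℝ} (hb : 0 ≤ b) (hx : 1 - 2 * δ ≤ x ^ 2)
    (hx1 : |x| ≤ 1) (hb2 : b ^ 2 ≤ 1 - 2 * δ) : (1 - |x|) * (1 + b) ≤ 2 * δ := by
  have h1 : b ≤ |x| := by
    have h := sq_le_sq.mp (le_trans hb2 hx)
    rwa [abs_of_nonneg hb] at h
  have h2 : (1 - |x|) * (1 + b) ≤ (1 - |x|) * (1 + |x|) :=
    mul_le_mul_of_nonneg_left (by linarith) (by linarith)
  have h3 : (1 - |x|) * (1 + |x|) = 1 - x ^ 2 := by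
    rw [← sq_abs x]; ring
  linarith

/-- The key bound. -/
lemma key {N : ℕ} (hN : Odd N) (u v : Fin N → ℝ) (huv : ∀ j, |u j| + |v j| ≤ 1)
    {S : ℝ} (hu : ∑ j, u j ^ 2 = S) (hv : ∑ j, v j ^ 2 = S) (h0 : ∑ j, u j * v j = 0) :
    2 * S ≤ N - 3 / 4 := by
  classical
  by_contra hcon
  push Not at hcon
  set δ : Fin N → ℝ := fun j => 1 - u j ^ 2 - v j ^ 2 with hδ
  set x : Fin N → ℝ := fun j => u j ^ 2 - v j ^ 2 with hx
  set y : Fin N → ℝ := fun j => 2 * (u j * v j) with hy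
  have hD : ∑ j, δ j = N - 2 * S := by
    simp only [hδ]
    rw [Finset.sum_sub_distrib, Finset.sum_sub_distrib, hu, hv]
    simp
    ring
  have hD' : ∑ j, δ j < 3 / 4 := by linarith
  have hx0 : ∑ j, x j = 0 := by
    simp only [hx]
    rw [Finset.sum_sub_distrib, hu, hv]; ring
  have hy0 : ∑ j, y j = 0 := by
    simp only [hy]
    rw [← Finset.mul_sum, h0]; ring
  have hyδ : ∀ j, |y j| ≤ δ j := by
    intro j
    have h1 := huv j
    have h2 := abs_nonneg (u j)
    have h3 := abs_nonneg (v j)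
    have h4 : (|u j| + |v j|) ^ 2 ≤ 1 := by nlinarith
    have h5 : |y j| = 2 * (|u j| * |v j|) := by
      simp only [hy]
      rw [abs_mul, abs_mul]; norm_num
    rw [h5]
    simp only [hδ]
    have h6 := sq_abs (u j)
    have h7 := sq_abs (v j)
    nlinarith
  have hδ0 : ∀ j, 0 ≤ δ j := fun j => le_trans (abs_nonneg _) (hyδ j)
  have hxy : ∀ j, x j ^ 2 + y j ^ 2 = (1 - δ j) ^ 2 := by
    intro j
    simp only [hx, hy, hδ]
    ring
  have hx1 : ∀ j, |x j| ≤ 1 := by
    intro j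
    simp only [hx]
    have h1 := huv j
    have h2 := abs_nonneg (u j)
    have h3 := abs_nonneg (v j)
    have h6 := sq_abs (u j)
    have h7 := sq_abs (v j)
    rw [abs_le]
    constructor <;> nlinarith
  have hxδ : ∀ j, 1 - 2 * δ j ≤ x j ^ 2 := by
    intro j
    have h1 := hxy j
    have h2 : y j ^ 2 ≤ δ j ^ 2 := by
      rw [← sq_abs (y j)]
      exact pow_le_pow_left₀ (abs_nonneg _) (hyδ j) 2
    nlinarith
  have hpar := parity_step hN x hx1 hx0
  by_cases hall : ∀ j, δ j ≤ 3 / 8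
  · have h1 : ∀ j, (1 - |x j|) * (1 + 1 / 2) ≤ 2 * δ j := by
      intro j
      exact chord (by norm_num) (hxδ j) (hx1 j) (by have := hall j; linarith)
    have h2 : (∑ j, (1 - |x j|)) * (1 + 1 / 2) ≤ 2 * ∑ j, δ j := by
      rw [Finset.sum_mul, Finset.mul_sum]
      exact Finset.sum_le_sum (fun j _ => h1 j)
    linarith
  · push Not at hall
    obtain ⟨k, hk⟩ := hall
    set E : ℝ := ∑ j ∈ univ.erase k, δ j with hE
    have hDE : ∑ j, δ j = δ k + E := by
      rw [hE, Finset.add_sum_erase _ _ (mem_univ k)]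
    have hE0 : 0 ≤ E := Finset.sum_nonneg (fun j _ => hδ0 j)
    have hE1 : E < 3 / 8 := by linarith
    have hyk : |y k| ≤ E := by
      have h1 : y k + ∑ j ∈ univ.erase k, y j = 0 := by
        rw [Finset.add_sum_erase _ _ (mem_univ k)]; exact hy0
      have h2 : y k = - ∑ j ∈ univ.erase k, y j := by linarith
      rw [h2, abs_neg]
      calc |∑ j ∈ univ.erase k, y j| ≤ ∑ j ∈ univ.erase k, |y j| :=
            Finset.abs_sum_le_sum_abs _ _
        _ ≤ E := Finset.sum_le_sum (fun j _ => hyδ j)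
    set b := Real.sqrt (1 - 2 * E) with hb
    have hb0 : 0 ≤ b := Real.sqrt_nonneg _
    have hbsq : b ^ 2 = 1 - 2 * E := Real.sq_sqrt (by linarith)
    have h1 : ∀ j ∈ univ.erase k, (1 - |x j|) * (1 + b) ≤ 2 * δ j := by
      intro j hj
      have hjE : δ j ≤ E := Finset.single_le_sum (f := δ) (fun i _ => hδ0 i) hj
      exact chord hb0 (hxδ j) (hx1 j) (by linarith)
    have h2 : (∑ j ∈ univ.erase k, (1 - |x j|)) * (1 + b) ≤ (1 - b) * (1 + b) := by
      have : (∑ j ∈ univ.erase k, (1 - |x j|)) * (1 + b) ≤ 2 * E := by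
        rw [Finset.sum_mul, hE, Finset.mul_sum]
        exact Finset.sum_le_sum h1
      nlinarith
    have h3 : ∑ j ∈ univ.erase k, (1 - |x j|) ≤ 1 - b :=
      le_of_mul_le_mul_right h2 (by linarith)
    have h4 : ∑ j, (1 - |x j|) = (1 - |x k|) + ∑ j ∈ univ.erase k, (1 - |x j|) := by
      rw [Finset.add_sum_erase _ (fun j => 1 - |x j|) (mem_univ k)]
    set a := Real.sqrt (1 + 8 * E) with ha
    have ha0 : 0 ≤ a := Real.sqrt_nonneg _
    have hasq : a ^ 2 = 1 + 8 * E := Real.sq_sqrt (by linarith)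
    have ha2 : a ≤ 2 := by
      rw [ha]
      rw [show (2:ℝ) = Real.sqrt 4 by
        rw [show (4:ℝ) = 2 ^ 2 by norm_num]; exact (Real.sqrt_sq (by norm_num)).symm]
      exact Real.sqrt_le_sqrt (by linarith)
    have hba : 1 - a / 4 ≤ b := by
      by_contra hlt
      push Not at hlt
      have h5 : b ^ 2 < (1 - a / 4) ^ 2 := pow_lt_pow_left₀ hlt hb0 two_ne_zero
      have h6 : 0 ≤ (2 - a) * (5 * a + 2) :=
        mul_nonneg (by linarith) (by linarith)
      have h7 : (1 - a / 4) ^ 2 = 1 - 2 * E - (2 - a) * (5 * a + 2) / 16 +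
          (1 + 8 * E - a ^ 2) / 4 := by ring
      rw [h7, hasq, hbsq] at h5
      linarith
    have hxk : a / 4 < |x k| := by
      have hxk1 : x k ^ 2 = (1 - δ k) ^ 2 - y k ^ 2 := by have := hxy k; linarith
      have hyk2 : y k ^ 2 ≤ E ^ 2 := by
        rw [← sq_abs (y k)]
        exact pow_le_pow_left₀ (abs_nonneg _) hyk 2
      have hdk : 1 / 4 + E < 1 - δ k := by linarith
      have h5 : (1 / 4 + E) ^ 2 < (1 - δ k) ^ 2 :=
        pow_lt_pow_left₀ hdk (by linarith) two_ne_zero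
      have h6 : (a / 4) ^ 2 < |x k| ^ 2 := by
        rw [sq_abs]
        have h7 : (a / 4) ^ 2 = (1 / 4 + E) ^ 2 - E ^ 2 := by
          rw [div_pow, hasq]; ring
        linarith
      exact lt_of_pow_lt_pow_left₀ 2 (abs_nonneg _) h6
    linarith

/-- Upper bound for inscribed squares. -/
lemma upper (n : ℕ) {s : ℝ} (hs : s ∈ cubeEdges 2 (2 * n + 1)) :
    s ≤ Real.sqrt ((8 * n + 1) / 8) := by
  obtain ⟨hs0, φ, hφ⟩ := hs
  let e0 : EuclideanSpace ℝ (Fin 2) := !₂[s, 0]
  let e1 : EuclideanSpace ℝ (Fin 2) := !₂[0, s]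
  let e2 : EuclideanSpace ℝ (Fin 2) := !₂[s, s]
  let z : EuclideanSpace ℝ (Fin 2) := !₂[0, 0]
  have hz : ∀ j, 0 ≤ φ z j ∧ φ z j ≤ 1 := hφ z (by
    intro i; fin_cases i <;> simp [z, hs0])
  have h0 : ∀ j, 0 ≤ φ e0 j ∧ φ e0 j ≤ 1 := hφ e0 (by
    intro i; fin_cases i <;> simp [e0, hs0])
  have h1 : ∀ j, 0 ≤ φ e1 j ∧ φ e1 j ≤ 1 := hφ e1 (by
    intro i; fin_cases i <;> simp [e1, hs0])
  have h2 : ∀ j, 0 ≤ φ e2 j ∧ φ e2 j ≤ 1 := hφ e2 (by
    intro i; fin_cases i <;> simp [e2, hs0])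
  let L := φ.linearIsometry
  have hL : ∀ p q, φ p - φ q = L (p - q) := by
    intro p q
    have := φ.map_vsub p q
    simpa [L] using this.symm
  set u := L e0 with hu
  set v := L e1 with hv
  have hz0 : z = 0 := by
    ext i; fin_cases i <;> simp [z]
  have hu' : ∀ j, φ e0 j - φ z j = u j := by
    intro j
    have := congrArg (fun w => w j) (hL e0 z)
    simpa [hz0, hu] using this
  have hv' : ∀ j, φ e1 j - φ z j = v j := by
    intro j
    have := congrArg (fun w => w j) (hL e1 z)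
    simpa [hz0, hv] using this
  have he2 : e2 = e0 + e1 := by
    ext i; fin_cases i <;> simp [e0, e1, e2]
  have huv' : ∀ j, φ e2 j - φ z j = u j + v j := by
    intro j
    have := congrArg (fun w => w j) (hL e2 z)
    simpa [hz0, hu, hv, he2] using this
  have hbound : ∀ j, |u j| + |v j| ≤ 1 := by
    intro j
    have a0 := hz j
    have a1 := h0 j
    have a2 := h1 j
    have a3 := h2 j
    have b1 := hu' j
    have b2 := hv' j
    have b3 := huv' j
    rcases abs_cases (u j) with ⟨c1, _⟩ | ⟨c1, _⟩ <;>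
    rcases abs_cases (v j) with ⟨c2, _⟩ | ⟨c2, _⟩ <;>
    rw [c1, c2] <;> linarith
  have hnu : ∑ j, u j ^ 2 = s ^ 2 := by
    have h : ‖u‖ ^ 2 = s ^ 2 := by
      rw [hu, L.norm_map, EuclideanSpace.norm_sq_eq]
      simp [e0]
    rw [← h, EuclideanSpace.norm_sq_eq]
    simp
  have hnv : ∑ j, v j ^ 2 = s ^ 2 := by
    have h : ‖v‖ ^ 2 = s ^ 2 := by
      rw [hv, L.norm_map, EuclideanSpace.norm_sq_eq]
      simp [e1]
    rw [← h, EuclideanSpace.norm_sq_eq]
    simp
  have hin : ∑ j, u j * v j = 0 := by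
    have h : inner ℝ u v = (0:ℝ) := by
      rw [hu, hv, L.inner_map_map]
      simp [e0, e1, PiLp.inner_apply]
    rw [PiLp.inner_apply] at h
    simpa [mul_comm] using h
  have hodd : Odd (2 * n + 1) := ⟨n, rfl⟩
  have hkey := key hodd u v hbound hnu hnv hin
  push_cast at hkey
  apply Real.le_sqrt_of_sq_le
  linarith

/-- First side vector of the extremal square (coordinates indexed by naturals). -/
noncomputable def sideU (m j : ℕ) : ℝ := if j < m + 1 then 1 else if j < 2 * m + 1 then 0 else 1 / 4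

/-- Second side vector of the extremal square. -/
noncomputable def sideV (m j : ℕ) : ℝ :=
  if j < m + 1 then 0 else if j < 2 * m + 1 then 1 else if j = 2 * m + 1 then 3 / 4 else -(3 / 4)

lemma sum_split (m : ℕ) (f : ℕ → ℝ) (a b : ℝ) (ha : ∀ j, j < m + 1 → f j = a)
    (hb : ∀ j, m + 1 ≤ j → j < 2 * m + 1 → f j = b) :
    ∑ j : Fin (2 * (m + 1) + 1), f j = (m + 1) * a + m * b + f (2 * m + 1) + f (2 * m + 2) := by
  rw [Fin.sum_univ_eq_sum_range f (2 * (m + 1) + 1)]
  have e : 2 * (m + 1) + 1 = (2 * m + 1) + 1 + 1 := by ring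
  rw [e, Finset.sum_range_succ, Finset.sum_range_succ]
  have e2 : 2 * m + 1 = (m + 1) + m := by ring
  have h1 : ∑ x ∈ Finset.range (2 * m + 1), f x = (m + 1) * a + m * b := by
    rw [e2, Finset.sum_range_add]
    have h2 : ∑ x ∈ Finset.range (m + 1), f x = (m + 1) * a := by
      rw [Finset.sum_congr rfl (fun x hx => ha x (Finset.mem_range.mp hx))]
      simp
    have h3 : ∑ x ∈ Finset.range m, f (m + 1 + x) = m * b := by
      rw [Finset.sum_congr rfl (fun x hx => hb (m + 1 + x) (by omega)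
        (by have := Finset.mem_range.mp hx; omega))]
      simp
    rw [h2, h3]
  rw [h1]

lemma sum_U (m : ℕ) : ∑ j : Fin (2 * (m + 1) + 1), sideU m j ^ 2 = m + 1 + 1 / 8 := by
  rw [sum_split m (fun j => sideU m j ^ 2) 1 0]
  · have h1 : sideU m (2 * m + 1) = 1 / 4 := by
      unfold sideU; rw [if_neg (by omega), if_neg (by omega)]
    have h2 : sideU m (2 * m + 2) = 1 / 4 := by
      unfold sideU; rw [if_neg (by omega), if_neg (by omega)]
    simp only [h1, h2]; ring
  · intro j hj; simp [sideU, hj]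
  · intro j hj hj2
    simp only [sideU]
    rw [if_neg (by omega), if_pos hj2]; norm_num

lemma sum_V (m : ℕ) : ∑ j : Fin (2 * (m + 1) + 1), sideV m j ^ 2 = m + 1 + 1 / 8 := by
  rw [sum_split m (fun j => sideV m j ^ 2) 0 1]
  · have h1 : sideV m (2 * m + 1) = 3 / 4 := by
      unfold sideV; rw [if_neg (by omega), if_neg (by omega), if_pos rfl]
    have h2 : sideV m (2 * m + 2) = -(3 / 4) := by
      unfold sideV; rw [if_neg (by omega), if_neg (by omega), if_neg (by omega)]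
    simp only [h1, h2]; ring
  · intro j hj; simp [sideV, hj]
  · intro j hj hj2
    simp only [sideV]
    rw [if_neg (by omega), if_pos hj2]; norm_num

lemma sum_UV (m : ℕ) : ∑ j : Fin (2 * (m + 1) + 1), sideU m j * sideV m j = 0 := by
  rw [sum_split m (fun j => sideU m j * sideV m j) 0 0]
  · have h1 : sideU m (2 * m + 1) = 1 / 4 := by
      unfold sideU; rw [if_neg (by omega), if_neg (by omega)]
    have h2 : sideU m (2 * m + 2) = 1 / 4 := by
      unfold sideU; rw [if_neg (by omega), if_neg (by omega)]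
    have h3 : sideV m (2 * m + 1) = 3 / 4 := by
      unfold sideV; rw [if_neg (by omega), if_neg (by omega), if_pos rfl]
    have h4 : sideV m (2 * m + 2) = -(3 / 4) := by
      unfold sideV; rw [if_neg (by omega), if_neg (by omega), if_neg (by omega)]
    simp only [h1, h2, h3, h4]; ring
  · intro j hj; simp [sideU, sideV, hj]
  · intro j hj hj2
    simp only [sideU, sideV]
    rw [if_neg (by omega), if_pos hj2]; norm_num

lemma abs_UV (m j : ℕ) : |sideU m j| + |sideV m j| ≤ 1 := by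
  unfold sideU sideV
  split_ifs <;> norm_num [abs_of_pos, abs_of_neg]

/-- Lower bound: the explicit square. -/
lemma lower (n : ℕ) (hn : 1 ≤ n) :
    Real.sqrt ((8 * n + 1) / 8) ∈ cubeEdges 2 (2 * n + 1) := by
  obtain ⟨m, rfl⟩ : ∃ m, n = m + 1 := ⟨n - 1, by omega⟩
  set s := Real.sqrt ((8 * ((m + 1 : ℕ) : ℝ) + 1) / 8) with hs
  have hs2 : s ^ 2 = m + 1 + 1 / 8 := by
    rw [hs, Real.sq_sqrt (by positivity)]
    push_cast; ring
  have hspos : 0 < s := Real.sqrt_pos.mpr (by positivity)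
  let U' : EuclideanSpace ℝ (Fin (2 * (m + 1) + 1)) := WithLp.toLp 2 (fun j => sideU m j)
  let V' : EuclideanSpace ℝ (Fin (2 * (m + 1) + 1)) := WithLp.toLp 2 (fun j => sideV m j)
  let T : EuclideanSpace ℝ (Fin (2 * (m + 1) + 1)) :=
    WithLp.toLp 2 (fun j => 1 / 2 - sideU m j / 2 - sideV m j / 2)
  let L : EuclideanSpace ℝ (Fin 2) →ₗᵢ[ℝ] EuclideanSpace ℝ (Fin (2 * (m + 1) + 1)) :=
    { toFun := fun x => (x 0 / s) • U' + (x 1 / s) • V'
      map_add' := by
        intro x y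
        ext j
        simp [U', V']
        ring
      map_smul' := by
        intro r x
        ext j
        simp [U', V']
        ring
      norm_map' := by
        intro x
        have h1 : ‖(x 0 / s) • U' + (x 1 / s) • V'‖ ^ 2 = ‖x‖ ^ 2 := by
          rw [EuclideanSpace.norm_sq_eq, EuclideanSpace.norm_sq_eq]
          have h2 : ∀ j : Fin (2 * (m + 1) + 1),
              ‖((x 0 / s) • U' + (x 1 / s) • V') j‖ ^ 2 =
              (x 0 / s) ^ 2 * sideU m j ^ 2 + (x 1 / s) ^ 2 * sideV m j ^ 2 +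
                2 * (x 0 / s) * (x 1 / s) * (sideU m j * sideV m j) := by
            intro j
            simp [U', V']
            ring
          rw [Finset.sum_congr rfl (fun j _ => h2 j)]
          rw [Finset.sum_add_distrib, Finset.sum_add_distrib, ← Finset.mul_sum,
            ← Finset.mul_sum, ← Finset.mul_sum, sum_U, sum_V, sum_UV, ← hs2]
          simp
          field_simp
        exact (sq_eq_sq₀ (norm_nonneg _) (norm_nonneg _)).mp h1 }
  refine ⟨hspos.le, (AffineIsometryEquiv.constVAdd ℝ _ T).toAffineIsometry.comp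
    L.toAffineIsometry, ?_⟩
  intro x hx j
  have hval : ((AffineIsometryEquiv.constVAdd ℝ _ T).toAffineIsometry.comp
      L.toAffineIsometry) x j =
      1 / 2 + (x 0 / s - 1 / 2) * sideU m j + (x 1 / s - 1 / 2) * sideV m j := by
    simp [L, U', V', T]
    ring
  rw [hval]
  have hx0 := hx 0
  have hx1 := hx 1
  have a0 : |x 0 / s - 1 / 2| ≤ 1 / 2 := by
    have h1 : 0 ≤ x 0 / s := div_nonneg hx0.1 hspos.le
    have h2 : x 0 / s ≤ 1 := (div_le_one hspos).mpr hx0.2
    rw [abs_le]; constructor <;> linarith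
  have a1 : |x 1 / s - 1 / 2| ≤ 1 / 2 := by
    have h1 : 0 ≤ x 1 / s := div_nonneg hx1.1 hspos.le
    have h2 : x 1 / s ≤ 1 := (div_le_one hspos).mpr hx1.2
    rw [abs_le]; constructor <;> linarith
  have hUV := abs_UV m j
  have b0 : |(x 0 / s - 1 / 2) * sideU m j| ≤ 1 / 2 * |sideU m j| := by
    rw [abs_mul]
    exact mul_le_mul_of_nonneg_right a0 (abs_nonneg _)
  have b1 : |(x 1 / s - 1 / 2) * sideV m j| ≤ 1 / 2 * |sideV m j| := by
    rw [abs_mul]
    exact mul_le_mul_of_nonneg_right a1 (abs_nonneg _)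
  rw [abs_le] at b0 b1
  constructor <;> linarith

theorem result (n : ℕ) (hn : 1 ≤ n) :
    IsGreatest (cubeEdges 2 (2 * n + 1)) (Real.sqrt ((8 * n + 1) / 8)) :=
  ⟨lower n hn, fun _ hs => upper n hs⟩

end Pool.Agent.Results.MP_befaea_co.OddSquare
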